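import Pool.Agent.H90.SRC.Targets

/-!
# ONE: the price per layer is at least one
-/

set_option autoImplicit false

open Finset
open Pool.Agent.H66.SLP Pool.Agent.H90.SRC

namespace Pool.Agent.H36.SRC

theorem pf_ONE : T_ONE := by
  intro Y u p α β M θ hp hαβ hM h
  obtain ⟨ι, _, _, z, s, e, -, hcov, hsum⟩ := h
  have h1 : M ≤ cov s e univ α := hcov α le_rfl hαβ
  have h2 : cov s e univ α ≤ Fintype.card ι := by
    unfold cov
    exact Finset.card_le_univ _
  have h3 : (M : ℝ) ≤ ∑ i, p (z i) := by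
    calc (M : ℝ) ≤ (Fintype.card ι : ℝ) := by exact_mod_cast h1.trans h2
      _ = ∑ _i : ι, (1 : ℝ) := by simp
      _ ≤ ∑ i, p (z i) := Finset.sum_le_sum fun i _ => (hp (z i)).1
  have hM0 : (0 : ℝ) < M := by exact_mod_cast hM
  have h4 : (M : ℝ) * 1 ≤ M * θ := by rw [mul_one]; exact h3.trans hsum
  exact le_of_mul_le_mul_left h4 hM0

end Pool.Agent.H36.SRC
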